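import Pool.Agent.H37.UMD.Stmts2

set_option autoImplicit false

open MeasureTheory ProbabilityTheory Finset

namespace Pool.UMD

lemma KER_pdf (g s : ℝ) (h : 0 ≤ g * s) :
    gaussianPDFReal 0 1 (g + s) ≤
      gaussianPDFReal 0 1 g * √(2 * Real.pi) * gaussianPDFReal 0 1 s := by
  have h2 : (0 : ℝ) < √(2 * Real.pi) := by positivity
  have e1 : ∀ x : ℝ, gaussianPDFReal 0 1 x = (√(2 * Real.pi))⁻¹ * Real.exp (-x ^ 2 / 2) := by
    intro x
    unfold gaussianPDFReal
    simp
  rw [e1, e1, e1]
  have e2 : (√(2 * Real.pi))⁻¹ * Real.exp (-g ^ 2 / 2) * √(2 * Real.pi) *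
      ((√(2 * Real.pi))⁻¹ * Real.exp (-s ^ 2 / 2)) =
      (√(2 * Real.pi))⁻¹ * Real.exp (-g ^ 2 / 2 + -s ^ 2 / 2) := by
    rw [Real.exp_add]
    field_simp
  rw [e2]
  apply mul_le_mul_of_nonneg_left _ (by positivity)
  apply Real.exp_le_exp.mpr
  nlinarith

lemma KER_int (w : ℝ → ℝ) (hw : Measurable w) (h0 : ∀ t, 0 ≤ w t) (h1 : ∀ t, w t ≤ 1) (g : ℝ)
    (S : Set ℝ) (hS : MeasurableSet S) (hg : ∀ t ∈ S, 0 ≤ g * (t - g)) :
    ∫ t in S, w t ∂g1 ≤
      gaussianPDFReal 0 1 g * √(2 * Real.pi) * ∫ s, w (g + s) ∂g1 := by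
  rw [← integral_indicator hS]
  rw [integral_gaussianReal_eq_integral_smul (by norm_num : (1 : NNReal) ≠ 0),
    integral_gaussianReal_eq_integral_smul (by norm_num : (1 : NNReal) ≠ 0)]
  rw [← integral_add_left_eq_self (fun x => gaussianPDFReal 0 1 x • S.indicator w x) g]
  rw [← integral_const_mul]
  have hint : Integrable (fun s => gaussianPDFReal 0 1 s * w (g + s)) volume := by
    apply (integrable_gaussianPDFReal 0 1).mono'
    · exact ((stronglyMeasurable_gaussianPDFReal 0 1).measurable.mul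
        (hw.comp (measurable_const.add measurable_id))).aestronglyMeasurable
    · refine Filter.Eventually.of_forall fun s => ?_
      rw [Real.norm_eq_abs, abs_mul, abs_of_nonneg (gaussianPDFReal_nonneg _ _ _),
        abs_of_nonneg (h0 _)]
      exact mul_le_of_le_one_right (gaussianPDFReal_nonneg _ _ _) (h1 _)
  have hint2 : Integrable (fun s => gaussianPDFReal 0 1 g * √(2 * Real.pi) *
      (gaussianPDFReal 0 1 s • w (g + s))) volume := by
    simp only [smul_eq_mul]
    exact hint.const_mul _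
  apply integral_mono_of_nonneg _ hint2
  · refine Filter.Eventually.of_forall fun s => ?_
    simp only [smul_eq_mul]
    by_cases hs : g + s ∈ S
    · rw [Set.indicator_of_mem hs]
      have h2 := KER_pdf g s (by simpa using hg _ hs)
      calc gaussianPDFReal 0 1 (g + s) * w (g + s)
          ≤ gaussianPDFReal 0 1 g * √(2 * Real.pi) * gaussianPDFReal 0 1 s * w (g + s) :=
            mul_le_mul_of_nonneg_right h2 (h0 _)
        _ = _ := by ring
    · rw [Set.indicator_of_notMem hs, mul_zero]
      have := gaussianPDFReal_nonneg 0 1 g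
      have := gaussianPDFReal_nonneg 0 1 s
      have := h0 (g + s)
      positivity
  · refine Filter.Eventually.of_forall fun s => ?_
    simp only [smul_eq_mul, Pi.zero_apply]
    apply mul_nonneg (gaussianPDFReal_nonneg _ _ _)
    exact Set.indicator_nonneg (fun x _ => h0 x) _

lemma KER_stk (u : ℝ → ℝ) (hu : Measurable u) (h0 : ∀ t, 0 ≤ u t) (h1 : ∀ t, u t ≤ 1) (g : ℝ) :
    |stk u g| ≤ √(2 * Real.pi) * (∫ s, u (g + s) ∂g1 + ∫ s, u s ∂g1) := by
  have hpos : 0 < gaussianPDFReal 0 1 g := gaussianPDFReal_pos 0 1 g (by norm_num)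
  have hui : Integrable u g1 := by
    apply (integrable_const (1 : ℝ)).mono' hu.aestronglyMeasurable
    refine Filter.Eventually.of_forall fun s => ?_
    rw [Real.norm_eq_abs, abs_of_nonneg (h0 _)]
    exact h1 s
  have hm0 : 0 ≤ ∫ s, u s ∂g1 := integral_nonneg h0
  have key : ∀ S : Set ℝ, MeasurableSet S → (∀ t ∈ S, 0 ≤ g * (t - g)) →
      |(∫ t in S, (u t - ∫ s, u s ∂g1) ∂g1) / gaussianPDFReal 0 1 g| ≤
        √(2 * Real.pi) * (∫ s, u (g + s) ∂g1 + ∫ s, u s ∂g1) := by
    intro S hS hg
    rw [abs_div, abs_of_pos hpos, div_le_iff₀ hpos]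
    rw [integral_sub hui.integrableOn (integrable_const _)]
    have a1 := KER_int u hu h0 h1 g S hS hg
    have a2 := KER_int (fun _ => 1) measurable_const (fun _ => zero_le_one) (fun _ => le_rfl)
      g S hS hg
    simp only [integral_const, smul_eq_mul, mul_one] at a2 ⊢
    have a3 : g1.real Set.univ = 1 := by simp
    rw [a3] at a2
    have b1 : 0 ≤ ∫ t in S, u t ∂g1 := integral_nonneg h0
    have b2 : 0 ≤ (g1.restrict S).real Set.univ := measureReal_nonneg
    have b3 : (g1.restrict S).real Set.univ * ∫ s, u s ∂g1 ≤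
        gaussianPDFReal 0 1 g * √(2 * Real.pi) * 1 * ∫ s, u s ∂g1 :=
      mul_le_mul_of_nonneg_right a2 hm0
    have b4 : 0 ≤ (g1.restrict S).real Set.univ * ∫ s, u s ∂g1 := mul_nonneg b2 hm0
    rw [abs_le]
    constructor
    · nlinarith
    · nlinarith
  unfold stk
  split_ifs with hg
  · apply key _ measurableSet_Ioi
    intro t ht
    exact mul_nonneg hg (by simpa using (Set.mem_Ioi.mp ht).le)
  · rw [abs_neg]
    apply key _ measurableSet_Iio
    intro t ht
    have := Set.mem_Iio.mp ht
    have h3 : g ≤ 0 := (not_le.mp hg).le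
    exact mul_nonneg_of_nonpos_of_nonpos h3 (by linarith)

lemma KER_iq (m i j : ℕ) : Bd (iq m i j) 1 := by
  constructor
  · unfold iq
    apply Measurable.ite _ measurable_const measurable_const
    have h1 : Measurable (fun x : ℝ × ℝ => fo m ⌊x.1⌋) :=
      (measurable_of_countable (fo m)).comp (Int.measurable_floor.comp measurable_fst)
    have h2 : Measurable (fun x : ℝ × ℝ => fo m ⌊x.2⌋) :=
      (measurable_of_countable (fo m)).comp (Int.measurable_floor.comp measurable_snd)
    exact (h1 (measurableSet_singleton i)).inter (h2 (measurableSet_singleton j))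
  · intro x
    unfold iq
    split_ifs <;> simp

lemma KER_iq0 (m i j : ℕ) (x : ℝ × ℝ) : 0 ≤ iq m i j x := by
  unfold iq; split_ifs <;> simp

lemma KER_iq1 (m i j : ℕ) (x : ℝ × ℝ) : iq m i j x ≤ 1 := by
  unfold iq; split_ifs <;> simp

lemma KER_ap_meas (B : Mat) : Measurable (fun z : ℝ × ℝ => B.ap z) := by
  unfold Mat.ap
  fun_prop

lemma KER_xi0 (hRef : SRef) (m i j : ℕ) (A : Mat) (a e : ℝ × ℝ) (g : ℝ)
    (he : e.1 ^ 2 + e.2 ^ 2 = 1) :
    |xi0 (iq m i j) a A e g| ≤ √A.det * (√(2 * Real.pi) *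
      (mu (iq m i j) (a + g • A.stp e) A + mu (iq m i j) a A)) := by
  unfold xi0
  rw [abs_mul, abs_of_nonneg (Real.sqrt_nonneg _)]
  apply mul_le_mul_of_nonneg_left _ (Real.sqrt_nonneg _)
  have hm : Measurable (fun t : ℝ => mu (iq m i j) (a + t • A.stp e) (A.con e)) := by
    have h1 : Measurable (Function.uncurry fun (t : ℝ) (z : ℝ × ℝ) =>
        iq m i j (a + t • A.stp e + (A.con e).ap z)) := by
      apply (KER_iq m i j).1.comp
      have h2 : Measurable (fun p : ℝ × (ℝ × ℝ) => (A.con e).ap p.2) :=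
        (KER_ap_meas _).comp measurable_snd
      have h3 : Measurable (fun p : ℝ × (ℝ × ℝ) => a + p.1 • A.stp e) := by fun_prop
      exact h3.add h2
    exact (h1.stronglyMeasurable.integral_prod_right (ν := g2)).measurable
  have h0 : ∀ t : ℝ, 0 ≤ mu (iq m i j) (a + t • A.stp e) (A.con e) := fun t =>
    integral_nonneg fun z => KER_iq0 m i j _
  have h1 : ∀ t : ℝ, mu (iq m i j) (a + t • A.stp e) (A.con e) ≤ 1 := by
    intro t
    unfold mu
    calc ∫ z, iq m i j (a + t • A.stp e + (A.con e).ap z) ∂g2 ≤ ∫ _z, (1 : ℝ) ∂g2 := by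
          apply integral_mono_of_nonneg
          · exact Filter.Eventually.of_forall fun z => KER_iq0 m i j _
          · exact integrable_const _
          · exact Filter.Eventually.of_forall fun z => KER_iq1 m i j _
      _ = 1 := by simp
  have key := KER_stk (fun t => mu (iq m i j) (a + t • A.stp e) (A.con e)) hm h0 h1 g
  rw [hRef (iq m i j) 1 (KER_iq m i j) (a + g • A.stp e) A e he,
    hRef (iq m i j) 1 (KER_iq m i j) a A e he]
  have e1 : ∀ s : ℝ, a + (g + s) • A.stp e = a + g • A.stp e + s • A.stp e := by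
    intro s; rw [add_smul, add_assoc]
  simp only [e1] at key
  exact key

theorem sKer (hMzb : SMzb) (_hMas : SMas) (hRef : SRef) (hDet : SDet) (_hMst : SMst) : SKer := by
  obtain ⟨C, hC, h⟩ := hMzb
  refine ⟨6 * C, by linarith, ?_⟩
  intro m A a e g hm hdet hnm he
  have hpi : √(2 * Real.pi) ≤ 3 := by
    rw [Real.sqrt_le_left (by norm_num)]
    have := Real.pi_lt_d2
    nlinarith
  have hs : 0 < √A.det := Real.sqrt_pos.mpr hdet
  have hss : √A.det * √A.det = A.det := Real.mul_self_sqrt hdet.le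
  obtain ⟨hcd, hcz⟩ := hDet A e he
  have hcdet : 0 < (A.con e).det := by rw [hcd]; linarith
  have hcnm : ∀ z, nm ((A.con e).ap z) ≤ 2 * m * nm z := by
    intro z
    obtain ⟨z', hz', hz⟩ := hcz z
    rw [hz]
    refine (hnm z').trans ?_
    exact mul_le_mul_of_nonneg_left hz' (by positivity)
  obtain ⟨hA, hA1, -, -⟩ := h m A a hm hdet hnm
  obtain ⟨hB, hB1, -, -⟩ := h m A (a + g • A.stp e) hm hdet hnm
  obtain ⟨hD, hD1, hD2, hD3⟩ := h m (A.con e) (a + g • A.stp e) hm hcdet hcnm
  have hx0 := fun i j => KER_xi0 hRef m i j A a e g he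
  have hdiv : ∀ X : ℝ, X ≤ C / A.det → √A.det * X ≤ C / √A.det := by
    intro X hX
    rw [le_div_iff₀ hs]
    rw [le_div_iff₀ hdet] at hX
    calc √A.det * X * √A.det = X * (√A.det * √A.det) := by ring
      _ = X * A.det := by rw [hss]
      _ ≤ C := hX
  have hCs : 0 < C / √A.det := by positivity
  refine ⟨?_, ?_, ?_, ?_⟩
  · intro i j
    refine ⟨?_, ?_, ?_⟩
    · refine (hx0 i j).trans ?_
      have a1 := hdiv _ (hA i j).2.1
      have a2 := hdiv _ (hB i j).2.1
      have a3 := (hA i j).1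
      have a4 := (hB i j).1
      calc √A.det * (√(2 * Real.pi) * (mu (iq m i j) (a + g • A.stp e) A + mu (iq m i j) a A))
          = √(2 * Real.pi) * (√A.det * mu (iq m i j) (a + g • A.stp e) A +
              √A.det * mu (iq m i j) a A) := by ring
        _ ≤ 3 * (C / √A.det + C / √A.det) := by
            apply mul_le_mul hpi (add_le_add a2 a1) (by positivity) (by norm_num)
        _ = 6 * C / √A.det := by ring
    · unfold xi1
      rw [abs_mul, abs_of_nonneg hs.le]
      have a1 := (hD i j).2.2.1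
      rw [hcd] at a1
      have a2 : |(mz (iq m i j) (a + g • A.stp e) (A.con e)).1| / 2 ≤ C / A.det := by
        rw [div_le_iff₀ (by norm_num : (0 : ℝ) < 2)]
        calc _ ≤ C / (A.det / 2) := a1
          _ = C / A.det * 2 := by field_simp
      have a3 := hdiv _ a2
      have a4 : C / √A.det + C / √A.det ≤ 6 * C / √A.det := by
        rw [← add_div]
        apply div_le_div_of_nonneg_right _ hs.le
        linarith
      linarith
    · unfold xi2
      rw [abs_mul, abs_of_nonneg hs.le]
      have a1 := (hD i j).2.2.2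
      rw [hcd] at a1
      have a2 : |(mz (iq m i j) (a + g • A.stp e) (A.con e)).2| / 2 ≤ C / A.det := by
        rw [div_le_iff₀ (by norm_num : (0 : ℝ) < 2)]
        calc _ ≤ C / (A.det / 2) := a1
          _ = C / A.det * 2 := by field_simp
      have a3 := hdiv _ a2
      have a4 : C / √A.det + C / √A.det ≤ 6 * C / √A.det := by
        rw [← add_div]
        apply div_le_div_of_nonneg_right _ hs.le
        linarith
      linarith
  · calc ∑ i ∈ range m, ∑ j ∈ range m, |xi0 (iq m i j) a A e g|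
        ≤ ∑ i ∈ range m, ∑ j ∈ range m, √A.det * (√(2 * Real.pi) *
            (mu (iq m i j) (a + g • A.stp e) A + mu (iq m i j) a A)) :=
          Finset.sum_le_sum fun i _ => Finset.sum_le_sum fun j _ => hx0 i j
      _ = √A.det * (√(2 * Real.pi) *
            (∑ i ∈ range m, ∑ j ∈ range m, mu (iq m i j) (a + g • A.stp e) A +
              ∑ i ∈ range m, ∑ j ∈ range m, mu (iq m i j) a A)) := by
          simp only [Finset.mul_sum, Finset.sum_add_distrib, mul_add]
      _ ≤ √A.det * (3 * (1 + 1)) := by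
          apply mul_le_mul_of_nonneg_left _ hs.le
          apply mul_le_mul hpi (add_le_add hB1 hA1) _ (by norm_num)
          apply add_nonneg
          · exact Finset.sum_nonneg fun i _ => Finset.sum_nonneg fun j _ => (hB i j).1
          · exact Finset.sum_nonneg fun i _ => Finset.sum_nonneg fun j _ => (hA i j).1
      _ ≤ 6 * C * √A.det := by nlinarith
  · have a1 : ∑ i ∈ range m, ∑ j ∈ range m, |xi1 (iq m i j) a A e g| =
        √A.det * ∑ i ∈ range m, ∑ j ∈ range m,
          |(mz (iq m i j) (a + g • A.stp e) (A.con e)).1| := by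
      simp only [Finset.mul_sum, xi1, abs_mul, abs_of_nonneg hs.le]
    rw [a1]
    calc _ ≤ √A.det * 1 := mul_le_mul_of_nonneg_left hD2 hs.le
      _ ≤ 6 * C * √A.det := by nlinarith
  · have a1 : ∑ i ∈ range m, ∑ j ∈ range m, |xi2 (iq m i j) a A e g| =
        √A.det * ∑ i ∈ range m, ∑ j ∈ range m,
          |(mz (iq m i j) (a + g • A.stp e) (A.con e)).2| := by
      simp only [Finset.mul_sum, xi2, abs_mul, abs_of_nonneg hs.le]
    rw [a1]
    calc _ ≤ √A.det * 1 := mul_le_mul_of_nonneg_left hD3 hs.le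
      _ ≤ 6 * C * √A.det := by nlinarith

end Pool.UMD
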